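import Pool.Agent.H934R3.NP.Stmts

set_option autoImplicit false

/-! Task C2 of the NP-project (helper934): transposed kernels give adjoint operators. (helper77) -/

open MeasureTheory Set Filter Topology
open scoped ENNReal NNReal

namespace Pool.Agent.H77R3.NPC2

open Pool.Agent.H934R3.NP

lemma lint_sq {μ : Measure E} (φ : Lp ℝ 2 μ) : ∫⁻ x, ‖φ x‖ₑ ^ 2 ∂μ < ∞ := by
  have h := (Lp.memLp φ).integrable_sq
  have h2 := h.2
  rw [HasFiniteIntegral] at h2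
  simpa [enorm_pow] using h2

lemma mul_le_sq (a b : ℝ≥0∞) : a * b ≤ a ^ 2 + b ^ 2 := by
  rcases le_total a b with h | h
  · calc a * b ≤ b * b := mul_le_mul_left h b
      _ ≤ a ^ 2 + b ^ 2 := by rw [← sq]; exact le_add_self
  · calc a * b ≤ a * a := mul_le_mul_right h a
      _ ≤ a ^ 2 + b ^ 2 := by rw [← sq]; exact le_self_add

lemma integrable_ker {μ : Measure E} [IsFiniteMeasure μ] (k : E → E → ℝ) (C : ℝ)
    (hk : Measurable (Function.uncurry k))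
    (h1 : ∀ᵐ x ∂μ, ∫⁻ y, ENNReal.ofReal |k x y| ∂μ ≤ ENNReal.ofReal C)
    (h2 : ∀ᵐ y ∂μ, ∫⁻ x, ENNReal.ofReal |k x y| ∂μ ≤ ENNReal.ofReal C)
    (φ ψ : Lp ℝ 2 μ) :
    Integrable (Function.uncurry (fun x y => ψ x * (k x y * φ y))) (μ.prod μ) := by
  have hψ : AEStronglyMeasurable (fun p : E × E => ψ p.1) (μ.prod μ) :=
    (Lp.aestronglyMeasurable ψ).comp_fst
  have hφ : AEStronglyMeasurable (fun p : E × E => φ p.2) (μ.prod μ) :=
    (Lp.aestronglyMeasurable φ).comp_snd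
  have hkm : Measurable (fun p : E × E => k p.1 p.2) := hk
  have hks : AEStronglyMeasurable (fun p : E × E => k p.1 p.2) (μ.prod μ) :=
    hkm.aestronglyMeasurable
  refine ⟨hψ.mul (hks.mul hφ), ?_⟩
  rw [HasFiniteIntegral]
  have hb : ∀ p : E × E, ‖Function.uncurry (fun x y => ψ x * (k x y * φ y)) p‖ₑ ≤
      ‖k p.1 p.2‖ₑ * ‖ψ p.1‖ₑ ^ 2 + ‖k p.1 p.2‖ₑ * ‖φ p.2‖ₑ ^ 2 := by
    intro p
    simp only [Function.uncurry, enorm_mul]
    calc ‖ψ p.1‖ₑ * (‖k p.1 p.2‖ₑ * ‖φ p.2‖ₑ) = ‖k p.1 p.2‖ₑ * (‖ψ p.1‖ₑ * ‖φ p.2‖ₑ) := by ring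
      _ ≤ ‖k p.1 p.2‖ₑ * (‖ψ p.1‖ₑ ^ 2 + ‖φ p.2‖ₑ ^ 2) := by gcongr; exact mul_le_sq _ _
      _ = _ := by ring
  refine lt_of_le_of_lt (lintegral_mono hb) ?_
  have m1 : AEMeasurable (fun p : E × E => ‖k p.1 p.2‖ₑ * ‖ψ p.1‖ₑ ^ 2) (μ.prod μ) :=
    hks.enorm.mul (hψ.enorm.pow_const 2)
  have m2 : AEMeasurable (fun p : E × E => ‖k p.1 p.2‖ₑ * ‖φ p.2‖ₑ ^ 2) (μ.prod μ) :=
    hks.enorm.mul (hφ.enorm.pow_const 2)
  rw [lintegral_add_left' m1]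
  refine ENNReal.add_lt_top.mpr ⟨?_, ?_⟩
  · rw [lintegral_prod _ m1]
    have : ∫⁻ x, ∫⁻ y, ‖k x y‖ₑ * ‖ψ x‖ₑ ^ 2 ∂μ ∂μ ≤ ∫⁻ x, ENNReal.ofReal C * ‖ψ x‖ₑ ^ 2 ∂μ := by
      refine lintegral_mono_ae ?_
      filter_upwards [h1] with x hx
      have hkx : Measurable (fun y => k x y) := hk.comp measurable_prodMk_left
      rw [lintegral_mul_const _ hkx.enorm]
      gcongr
      simpa [Real.enorm_eq_ofReal_abs] using hx
    refine lt_of_le_of_lt this ?_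
    rw [lintegral_const_mul' _ _ ENNReal.ofReal_ne_top]
    exact ENNReal.mul_lt_top ENNReal.ofReal_lt_top (lint_sq ψ)
  · rw [lintegral_prod_symm _ m2]
    have : ∫⁻ y, ∫⁻ x, ‖k x y‖ₑ * ‖φ y‖ₑ ^ 2 ∂μ ∂μ ≤ ∫⁻ y, ENNReal.ofReal C * ‖φ y‖ₑ ^ 2 ∂μ := by
      refine lintegral_mono_ae ?_
      filter_upwards [h2] with y hy
      have hky : Measurable (fun x => k x y) := hk.comp measurable_prodMk_right
      rw [lintegral_mul_const _ hky.enorm]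
      gcongr
      simpa [Real.enorm_eq_ofReal_abs] using hy
    refine lt_of_le_of_lt this ?_
    rw [lintegral_const_mul' _ _ ENNReal.ofReal_ne_top]
    exact ENNReal.mul_lt_top ENNReal.ofReal_lt_top (lint_sq φ)

theorem t : TaskC2 := by
  intro μ hμ k C hC hk h1 h2 T T' hT hT' φ ψ
  rw [L2.inner_def, L2.inner_def]
  have hI := integrable_ker k C hk h1 h2 φ ψ
  have e1 : ∫ x, inner ℝ (ψ x) (T φ x) ∂μ = ∫ x, ∫ y, ψ x * (k x y * φ y) ∂μ ∂μ := by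
    refine integral_congr_ae ?_
    filter_upwards [hT φ] with x hx
    rw [integral_const_mul, ← hx]
    simp [mul_comm]
  have e2 : ∫ y, inner ℝ (T' ψ y) (φ y) ∂μ = ∫ y, ∫ x, ψ x * (k x y * φ y) ∂μ ∂μ := by
    refine integral_congr_ae ?_
    filter_upwards [hT' ψ] with y hy
    have : ∫ x, ψ x * (k x y * φ y) ∂μ = (∫ x, k x y * ψ x ∂μ) * φ y := by
      rw [← integral_mul_const]
      congr 1
      ext x
      ring
    rw [this, ← hy]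
    simp [mul_comm]
  rw [e1, e2]
  exact integral_integral_swap hI

end Pool.Agent.H77R3.NPC2
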